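import Mathlib

/-!
Covers of `{1, ..., N}` by `k`-term geometric progressions: the common core of the proofs.
`P k F` is any class of finite sets that contains the progressions of ratio 2 and is contained
in the class of progressions of positive integers with rational ratio larger than 1.
-/

namespace Pool.Agent.Work.MP_af7016_co

open Filter Topology Finset

/-- The least size of a cover of `{1, ..., N}` by sets of the class `P`. -/
noncomputable def coverNum (P : Finset ℕ → Prop) (N : ℕ) : ℕ :=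
  sInf {s | ∃ 𝓕 : Finset (Finset ℕ),
    ((∀ F ∈ 𝓕, P F) ∧ ∀ n ∈ Finset.Icc 1 N, ∃ F ∈ 𝓕, n ∈ F) ∧ 𝓕.card = s}

/-- The explicit cover by progressions of ratio 2. -/
theorem exists_cover (P : Finset ℕ → Prop) (k N : ℕ) (hk : 1 ≤ k)
    (h2 : ∀ a : ℕ, 1 ≤ a → P ((range k).image fun i => a * 2 ^ i)) :
    ∃ 𝓕 : Finset (Finset ℕ),
      ((∀ F ∈ 𝓕, P F) ∧ ∀ n ∈ Finset.Icc 1 N, ∃ F ∈ 𝓕, n ∈ F) ∧
        𝓕.card ≤ (N + 1) / 2 + N / 2 ^ k := by
  classical
  set A : Finset ℕ := (range ((N + 1) / 2)).image fun j => 2 * j + 1 with hA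
  set B : Finset ℕ := (range (N / 2 ^ k)).image fun j => 2 ^ k * (j + 1) with hB
  refine ⟨(A ∪ B).image fun a => (range k).image fun i => a * 2 ^ i, ⟨?_, ?_⟩, ?_⟩
  · intro F hF
    obtain ⟨a, ha, rfl⟩ := mem_image.1 hF
    apply h2
    rcases mem_union.1 ha with h | h
    · obtain ⟨j, -, rfl⟩ := mem_image.1 h
      omega
    · obtain ⟨j, -, rfl⟩ := mem_image.1 h
      exact Nat.one_le_iff_ne_zero.2 (by positivity)
  · intro n hn
    rw [mem_Icc] at hn
    obtain ⟨e, b, hb, rfl⟩ := Nat.exists_eq_two_pow_mul_odd (n := n) (by omega)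
    by_cases he : e < k
    · obtain ⟨j, rfl⟩ := hb
      refine ⟨_, mem_image.2 ⟨2 * j + 1, mem_union_left _ (mem_image.2 ⟨j, ?_, rfl⟩), rfl⟩,
        mem_image.2 ⟨e, mem_range.2 he, by ring⟩⟩
      rw [mem_range]
      have h1 : 1 ≤ 2 ^ e := Nat.one_le_two_pow
      have : 2 * j + 1 ≤ N := le_trans (Nat.le_mul_of_pos_left _ h1) hn.2
      omega
    · push Not at he
      obtain ⟨d, rfl⟩ := Nat.exists_eq_add_of_le he
      have hpos : 0 < 2 ^ d * b := by
        have := hb.pos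
        positivity
      refine ⟨_, mem_image.2 ⟨2 ^ (k + d) * b,
        mem_union_right _ (mem_image.2 ⟨2 ^ d * b - 1, ?_, ?_⟩), rfl⟩,
        mem_image.2 ⟨0, mem_range.2 (by omega), by ring⟩⟩
      · rw [mem_range]
        have : 2 ^ d * b ≤ N / 2 ^ k := by
          rw [Nat.le_div_iff_mul_le (by positivity)]
          calc 2 ^ d * b * 2 ^ k = 2 ^ (k + d) * b := by ring
            _ ≤ N := hn.2
        omega
      · rw [Nat.sub_add_cancel hpos]
        ring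
  · calc _ ≤ (A ∪ B).card := card_image_le
      _ ≤ A.card + B.card := card_union_le _ _
      _ ≤ _ := by
        apply Nat.add_le_add
        · exact card_image_le.trans (by simp)
        · exact card_image_le.trans (by simp)

/-- A term of a `k`-term progression of integers with a non-integral ratio is divisible by a
`k / 2`-th power of an integer at least 2. -/
theorem pow_dvd_of_den_ne_one (k : ℕ) (F : Finset ℕ) (a r : ℚ) (hr : 1 < r)
    (hF : F.image (fun n : ℕ => (n : ℚ)) = (range k).image fun i => a * r ^ i)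
    (hden : r.den ≠ 1) (n : ℕ) (hn : n ∈ F) : ∃ d : ℕ, 2 ≤ d ∧ d ^ (k / 2) ∣ n := by
  classical
  have hmem : ∀ i < k, ∃ x : ℕ, (x : ℚ) = a * r ^ i := by
    intro i hi
    have : a * r ^ i ∈ F.image (fun n : ℕ => (n : ℚ)) := by
      rw [hF]; exact mem_image.2 ⟨i, mem_range.2 hi, rfl⟩
    obtain ⟨x, -, hx⟩ := mem_image.1 this
    exact ⟨x, hx⟩
  have : (n : ℚ) ∈ (range k).image fun i => a * r ^ i := by
    rw [← hF]; exact mem_image.2 ⟨n, hn, rfl⟩
  obtain ⟨i, hi, hni⟩ := mem_image.1 this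
  rw [mem_range] at hi
  have hnum : 0 < r.num := Rat.num_pos.2 (by linarith)
  obtain ⟨p, hp⟩ : ∃ p : ℕ, r.num = p := ⟨r.num.toNat, by omega⟩
  set q := r.den with hq
  have hq0 : q ≠ 0 := r.den_nz
  have hq2 : 2 ≤ q := by omega
  have hrpq : r = (p : ℚ) / q := by
    have := Rat.num_div_den r
    rw [hp] at this
    simpa using this.symm
  have hqQ : (0 : ℚ) < q := by positivity
  have hrq : r * q = p := by
    rw [hrpq]
    exact div_mul_cancel₀ _ hqQ.ne'
  have hpq : q < p := by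
    have : (q : ℚ) < p := by
      have h := hr
      rw [hrpq, lt_div_iff₀ hqQ, one_mul] at h
      exact h
    exact_mod_cast this
  have hcop : Nat.Coprime p q := by
    have := r.reduced
    rw [hp] at this
    simpa using this
  by_cases hih : k / 2 ≤ i
  · obtain ⟨x, hx⟩ := hmem 0 (by omega)
    refine ⟨p, by omega, (pow_dvd_pow p hih).trans ?_⟩
    have h1 : n * q ^ i = x * p ^ i := by
      have : (n : ℚ) * (q : ℚ) ^ i = x * (p : ℚ) ^ i := by
        rw [← hni, hx, pow_zero, mul_one, mul_assoc, ← mul_pow, hrq]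
      exact_mod_cast this
    have h2 : p ^ i ∣ n * q ^ i := h1 ▸ Dvd.intro_left x rfl
    exact (Nat.Coprime.pow i i hcop).dvd_of_dvd_mul_right h2
  · obtain ⟨x, hx⟩ := hmem (k - 1) (by omega)
    obtain ⟨j, hj⟩ : ∃ j, k - 1 = i + j := ⟨k - 1 - i, by omega⟩
    refine ⟨q, hq2, (pow_dvd_pow q (show k / 2 ≤ j by omega)).trans ?_⟩
    have h1 : n * p ^ j = x * q ^ j := by
      have : (n : ℚ) * (p : ℚ) ^ j = x * (q : ℚ) ^ j := by
        rw [← hni, hx, hj, pow_add, mul_assoc, mul_assoc, mul_assoc, ← mul_pow, hrq]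
      exact_mod_cast this
    have h2 : q ^ j ∣ n * p ^ j := h1 ▸ Dvd.intro_left x rfl
    exact (Nat.Coprime.pow j j hcop.symm).dvd_of_dvd_mul_right h2

/-- A progression with an integral ratio has at most one term in `(N/2, N]`. -/
theorem eq_of_den_eq_one (k : ℕ) (F : Finset ℕ) (a r : ℚ) (ha : 0 < a) (hr : 1 < r)
    (hF : F.image (fun n : ℕ => (n : ℚ)) = (range k).image fun i => a * r ^ i)
    (hden : r.den = 1) (N x y : ℕ) (hx : x ∈ F) (hy : y ∈ F) (hx1 : N < 2 * x) (hx2 : x ≤ N)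
    (hy1 : N < 2 * y) (hy2 : y ≤ N) : x = y := by
  classical
  have hr2 : 2 ≤ r := by
    have h1 : (r.num : ℚ) = r := (Rat.den_eq_one_iff r).1 hden
    have h2 : (1 : ℤ) < r.num := by
      have : ((1 : ℤ) : ℚ) < r.num := by rw [h1]; simpa using hr
      exact_mod_cast this
    have h3 : (2 : ℤ) ≤ r.num := h2
    have : ((2 : ℤ) : ℚ) ≤ r.num := by exact_mod_cast h3
    rw [h1] at this
    simpa using this
  have hterm : ∀ z ∈ F, ∃ i, (z : ℚ) = a * r ^ i := by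
    intro z hz
    have : (z : ℚ) ∈ (range k).image fun i => a * r ^ i := by
      rw [← hF]; exact mem_image.2 ⟨z, hz, rfl⟩
    obtain ⟨i, -, hi⟩ := mem_image.1 this
    exact ⟨i, hi.symm⟩
  have key : ∀ (u v i j : ℕ), (u : ℚ) = a * r ^ i → (v : ℚ) = a * r ^ j → i < j → 2 * u ≤ v := by
    intro u v i j hu hv hij
    obtain ⟨d, rfl⟩ := Nat.exists_eq_add_of_lt hij
    have h1 : (1 : ℚ) ≤ r ^ d := one_le_pow₀ hr.le
    have h2 : 0 < a * r ^ i := by positivity
    have : (2 : ℚ) * u ≤ v := by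
      rw [hu, hv, pow_succ, pow_add]
      have : 2 ≤ r ^ d * r := by nlinarith
      nlinarith
    exact_mod_cast this
  obtain ⟨i, hi⟩ := hterm x hx
  obtain ⟨j, hj⟩ := hterm y hy
  rcases lt_trichotomy i j with h | h | h
  · have := key x y i j hi hj h
    omega
  · subst h
    exact_mod_cast hi.trans hj.symm
  · have := key y x j i hj hi h
    omega

theorem sum_inv_sq_le (N : ℕ) : ∑ d ∈ Icc 2 N, (1 : ℝ) / (d : ℝ) ^ 2 ≤ 1 := by
  have h : ∀ M : ℕ, ∑ d ∈ Icc 2 (M + 1), (1 : ℝ) / (d : ℝ) ^ 2 ≤ 1 - 1 / ((M : ℝ) + 1) := by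
    intro M
    induction M with
    | zero => simp
    | succ M ih =>
      rw [Finset.sum_Icc_succ_top (by omega)]
      have hM : (0 : ℝ) < (M : ℝ) + 1 := by positivity
      have : (1 : ℝ) / ((M + 1 + 1 : ℕ) : ℝ) ^ 2 ≤ 1 / ((M : ℝ) + 1) - 1 / ((M : ℝ) + 1 + 1) := by
        push_cast
        rw [div_sub_div _ _ hM.ne' (by positivity), div_le_div_iff₀ (by positivity) (by positivity)]
        nlinarith
      push_cast at this ih ⊢
      linarith
  rcases N with _ | M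
  · simp
  · have := h M
    have h0 : (0 : ℝ) ≤ 1 / ((M : ℝ) + 1) := by positivity
    linarith

/-- Few integers up to `N` are divisible by an `h`-th power of an integer at least 2. -/
theorem card_pow_dvd_le (h N : ℕ) (hh : 2 ≤ h) :
    (((Icc 1 N).filter fun n => ∃ d ∈ Icc 2 N, d ^ h ∣ n).card : ℝ) ≤ 4 * N / 2 ^ h := by
  classical
  have hsub : ((Icc 1 N).filter fun n => ∃ d ∈ Icc 2 N, d ^ h ∣ n) ⊆
      (Icc 2 N).biUnion fun d => (range (N / d ^ h)).image fun j => d ^ h * (j + 1) := by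
    intro n hn
    rw [mem_filter, mem_Icc] at hn
    obtain ⟨⟨hn1, hnN⟩, d, hd, c, rfl⟩ := hn
    have hd2 := (mem_Icc.1 hd).1
    have hc : 0 < c := Nat.pos_of_ne_zero (by rintro rfl; simp at hn1)
    refine mem_biUnion.2 ⟨d, hd, mem_image.2 ⟨c - 1, ?_, by rw [Nat.sub_add_cancel hc]⟩⟩
    rw [mem_range]
    have : c ≤ N / d ^ h := by
      rw [Nat.le_div_iff_mul_le (by positivity)]
      linarith [mul_comm c (d ^ h)]
    omega
  have h1 : ((Icc 1 N).filter fun n => ∃ d ∈ Icc 2 N, d ^ h ∣ n).card ≤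
      ∑ d ∈ Icc 2 N, N / d ^ h := by
    refine (card_le_card hsub).trans (card_biUnion_le.trans (sum_le_sum fun d _ => ?_))
    exact card_image_le.trans (by simp)
  have h2 : ((∑ d ∈ Icc 2 N, N / d ^ h : ℕ) : ℝ) ≤
      ∑ d ∈ Icc 2 N, (4 * N / 2 ^ h) * ((1 : ℝ) / (d : ℝ) ^ 2) := by
    push_cast
    refine sum_le_sum fun d hd => ?_
    have hd2 : (2 : ℝ) ≤ d := by exact_mod_cast (mem_Icc.1 hd).1
    refine Nat.cast_div_le.trans ?_
    obtain ⟨e, rfl⟩ := Nat.exists_eq_add_of_le hh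
    push_cast
    have h3 : (2 : ℝ) ^ e ≤ (d : ℝ) ^ e := pow_le_pow_left₀ (by norm_num) hd2 e
    have hN : (0 : ℝ) ≤ N := by positivity
    have : (4 * N / 2 ^ (2 + e)) * ((1 : ℝ) / (d : ℝ) ^ 2) = N / ((d : ℝ) ^ 2 * 2 ^ e) := by
      field_simp
      ring
    rw [this, pow_add]
    apply div_le_div_of_nonneg_left hN (by positivity)
    gcongr
  calc _ ≤ ((∑ d ∈ Icc 2 N, N / d ^ h : ℕ) : ℝ) := by exact_mod_cast h1
    _ ≤ _ := h2
    _ = (4 * N / 2 ^ h) * ∑ d ∈ Icc 2 N, ((1 : ℝ) / (d : ℝ) ^ 2) := by rw [mul_sum]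
    _ ≤ (4 * N / 2 ^ h) * 1 := by
      apply mul_le_mul_of_nonneg_left (sum_inv_sq_le N)
      positivity
    _ = _ := mul_one _

/-- The lower bound for covers by progressions of integers with rational ratio. -/
theorem card_cover_ge (k N : ℕ) (hk : 4 ≤ k) (𝓕 : Finset (Finset ℕ))
    (hP : ∀ F ∈ 𝓕, ∃ a r : ℚ, 0 < a ∧ 1 < r ∧
      F.image (fun n : ℕ => (n : ℚ)) = (range k).image fun i => a * r ^ i)
    (hc : ∀ n ∈ Finset.Icc 1 N, ∃ F ∈ 𝓕, n ∈ F) :
    (N : ℝ) / 2 - 4 * N / 2 ^ (k / 2) ≤ 𝓕.card := by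
  classical
  set B := (Icc 1 N).filter fun n => ∃ d ∈ Icc 2 N, d ^ (k / 2) ∣ n with hB
  set S := Icc (N / 2 + 1) N \ B with hS
  have hcov : ∀ n : ℕ, ∃ F : Finset ℕ, n ∈ Finset.Icc 1 N → F ∈ 𝓕 ∧ n ∈ F := by
    intro n
    by_cases hn : n ∈ Finset.Icc 1 N
    · obtain ⟨F, hF⟩ := hc n hn
      exact ⟨F, fun _ => hF⟩
    · exact ⟨∅, fun h => absurd h hn⟩
  choose f hf using hcov
  have hS1 : ∀ n ∈ S, n ∈ Finset.Icc 1 N := by
    intro n hn
    have := mem_Icc.1 (mem_sdiff.1 hn).1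
    rw [mem_Icc]; omega
  have hinj : S.card ≤ 𝓕.card := by
    apply card_le_card_of_injOn f
    · intro n hn
      exact (hf n (hS1 n hn)).1
    · intro x hx y hy hxy
      have hx' : x ∈ S := hx
      have hy' : y ∈ S := hy
      obtain ⟨hfx, hxf⟩ := hf x (hS1 x hx')
      obtain ⟨-, hyf⟩ := hf y (hS1 y hy')
      rw [← hxy] at hyf
      obtain ⟨a, r, ha, hr, hF⟩ := hP _ hfx
      have hxI := mem_Icc.1 (mem_sdiff.1 hx').1
      have hyI := mem_Icc.1 (mem_sdiff.1 hy').1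
      by_cases hden : r.den = 1
      · exact eq_of_den_eq_one k _ a r ha hr hF hden N x y hxf hyf (by omega) hxI.2 (by omega) hyI.2
      · exfalso
        obtain ⟨d, hd2, hd⟩ := pow_dvd_of_den_ne_one k _ a r hr hF hden x hxf
        apply (mem_sdiff.1 hx').2
        refine mem_filter.2 ⟨hS1 x hx', d, mem_Icc.2 ⟨hd2, ?_⟩, hd⟩
        have h1 : d ^ (k / 2) ≤ x := Nat.le_of_dvd (by omega) hd
        have h2 : d ≤ d ^ (k / 2) := Nat.le_self_pow (by omega) d
        omega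
  have h1 : (Icc (N / 2 + 1) N).card ≤ S.card + B.card := card_le_card_sdiff_add_card
  have h2 : (B.card : ℝ) ≤ 4 * N / 2 ^ (k / 2) := card_pow_dvd_le (k / 2) N (by omega)
  have h3 : N ≤ 2 * (Icc (N / 2 + 1) N).card := by
    rw [Nat.card_Icc]; omega
  have h4 : (N : ℝ) ≤ 2 * (𝓕.card + B.card) := by
    have : N ≤ 2 * (𝓕.card + B.card) := by omega
    exact_mod_cast this
  linarith

theorem coverNum_bounds (P : Finset ℕ → Prop) (k N : ℕ) (hk : 4 ≤ k) (hN : 1 ≤ N)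
    (h2 : ∀ a : ℕ, 1 ≤ a → P ((range k).image fun i => a * 2 ^ i))
    (hP : ∀ F, P F → ∃ a r : ℚ, 0 < a ∧ 1 < r ∧
      F.image (fun n : ℕ => (n : ℚ)) = (range k).image fun i => a * r ^ i) :
    1 / 2 - 4 / (2 : ℝ) ^ (k / 2) ≤ (coverNum P N : ℝ) / N ∧
      (coverNum P N : ℝ) / N ≤ 1 / 2 + 1 / (2 : ℝ) ^ k + 1 / (N : ℝ) := by
  obtain ⟨𝓖, h𝓖, hcard⟩ := exists_cover P k N (by omega) h2
  have hNR : (0 : ℝ) < N := by exact_mod_cast hN
  constructor
  · obtain ⟨𝓕, h𝓕, hc⟩ := Nat.sInf_mem (s := {s | ∃ 𝓕 : Finset (Finset ℕ),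
      ((∀ F ∈ 𝓕, P F) ∧ ∀ n ∈ Finset.Icc 1 N, ∃ F ∈ 𝓕, n ∈ F) ∧ 𝓕.card = s}) ⟨_, 𝓖, h𝓖, rfl⟩
    have := card_cover_ge k N hk 𝓕 (fun F hF => hP F (h𝓕.1 F hF)) h𝓕.2
    rw [le_div_iff₀ hNR]
    unfold coverNum
    rw [← hc]
    calc _ = (N : ℝ) / 2 - 4 * N / 2 ^ (k / 2) := by ring
      _ ≤ _ := this
  · have h0 : coverNum P N ≤ 𝓖.card := Nat.sInf_le ⟨𝓖, h𝓖, rfl⟩
    have h1 : coverNum P N ≤ (N + 1) / 2 + N / 2 ^ k := h0.trans hcard
    have h3 : (coverNum P N : ℝ) ≤ ((N : ℝ) + 1) / 2 + N / 2 ^ k := by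
      have h4 : (((N + 1) / 2 : ℕ) : ℝ) ≤ ((N : ℝ) + 1) / 2 := by
        have := Nat.cast_div_le (α := ℝ) (m := N + 1) (n := 2)
        simpa using this
      have h5 : ((N / 2 ^ k : ℕ) : ℝ) ≤ (N : ℝ) / 2 ^ k := by
        have := Nat.cast_div_le (α := ℝ) (m := N) (n := 2 ^ k)
        simpa using this
      have h6 : (coverNum P N : ℝ) ≤ (((N + 1) / 2 : ℕ) : ℝ) + ((N / 2 ^ k : ℕ) : ℝ) := by
        exact_mod_cast h1
      linarith
    rw [div_le_iff₀ hNR]
    have : (1 / 2 + 1 / (2 : ℝ) ^ k + 1 / (N : ℝ)) * N = N / 2 + N / 2 ^ k + 1 := by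
      field_simp
    rw [this]
    linarith

/-- Both the lower and the upper limiting density tend to `1 / 2`. -/
theorem tendsto_half (P : ℕ → Finset ℕ → Prop)
    (h2 : ∀ k a : ℕ, 1 ≤ a → P k ((range k).image fun i => a * 2 ^ i))
    (hP : ∀ k F, P k F → ∃ a r : ℚ, 0 < a ∧ 1 < r ∧
      F.image (fun n : ℕ => (n : ℚ)) = (range k).image fun i => a * r ^ i) :
    Tendsto (fun k => liminf (fun N : ℕ => (coverNum (P k) N : ℝ) / N) atTop) atTop (𝓝 (1 / 2)) ∧
    Tendsto (fun k => limsup (fun N : ℕ => (coverNum (P k) N : ℝ) / N) atTop) atTop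
      (𝓝 (1 / 2)) := by
  have hpow : Tendsto (fun k : ℕ => 1 / (2 : ℝ) ^ k) atTop (𝓝 0) := by
    have := tendsto_pow_atTop_nhds_zero_of_lt_one (r := (1 / 2 : ℝ)) (by norm_num) (by norm_num)
    simpa using this
  have hhalf : Tendsto (fun k : ℕ => k / 2) atTop atTop := by
    rw [tendsto_atTop_atTop]
    exact fun b => ⟨2 * b, fun a ha => by omega⟩
  have hlo : Tendsto (fun k : ℕ => 1 / 2 - 4 / (2 : ℝ) ^ (k / 2)) atTop (𝓝 (1 / 2)) := by
    have h := ((hpow.comp hhalf).const_mul 4).const_sub (1 / 2)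
    simp only [mul_zero, sub_zero] at h
    refine h.congr fun k => ?_
    simp only [Function.comp]
    ring
  have hhi : Tendsto (fun k : ℕ => 1 / 2 + 1 / (2 : ℝ) ^ k) atTop (𝓝 (1 / 2)) := by
    have h := hpow.const_add (1 / 2)
    rwa [add_zero] at h
  have key : ∀ k : ℕ, 4 ≤ k →
      1 / 2 - 4 / (2 : ℝ) ^ (k / 2) ≤ liminf (fun N : ℕ => (coverNum (P k) N : ℝ) / N) atTop ∧
      liminf (fun N : ℕ => (coverNum (P k) N : ℝ) / N) atTop ≤
        limsup (fun N : ℕ => (coverNum (P k) N : ℝ) / N) atTop ∧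
      limsup (fun N : ℕ => (coverNum (P k) N : ℝ) / N) atTop ≤ 1 / 2 + 1 / (2 : ℝ) ^ k := by
    intro k hk
    have hb : ∀ᶠ N : ℕ in atTop, 1 / 2 - 4 / (2 : ℝ) ^ (k / 2) ≤ (coverNum (P k) N : ℝ) / N ∧
        (coverNum (P k) N : ℝ) / N ≤ 1 / 2 + 1 / (2 : ℝ) ^ k + 1 / (N : ℝ) :=
      (eventually_ge_atTop 1).mono fun N hN => coverNum_bounds (P k) k N hk hN (h2 k) (hP k)
    have hup : Tendsto (fun N : ℕ => 1 / 2 + 1 / (2 : ℝ) ^ k + 1 / (N : ℝ)) atTop
        (𝓝 (1 / 2 + 1 / (2 : ℝ) ^ k)) := by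
      simpa using (tendsto_one_div_atTop_nhds_zero_nat (𝕜 := ℝ)).const_add
        (1 / 2 + 1 / (2 : ℝ) ^ k)
    have hbl : IsBoundedUnder (· ≥ ·) atTop (fun N : ℕ => (coverNum (P k) N : ℝ) / N) :=
      ⟨_, hb.mono fun N hN => hN.1⟩
    have hbu : IsBoundedUnder (· ≤ ·) atTop (fun N : ℕ => (coverNum (P k) N : ℝ) / N) :=
      hup.isBoundedUnder_le.mono_le (hb.mono fun N hN => hN.2)
    refine ⟨le_liminf_of_le hbu.isCoboundedUnder_ge (hb.mono fun N hN => hN.1),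
      liminf_le_limsup hbu hbl, ?_⟩
    rw [← hup.limsup_eq]
    exact limsup_le_limsup (hb.mono fun N hN => hN.2) hbl.isCoboundedUnder_le
      hup.isBoundedUnder_le
  constructor
  · refine tendsto_of_tendsto_of_tendsto_of_le_of_le' hlo hhi ?_ ?_
    · exact (eventually_ge_atTop 4).mono fun k hk => (key k hk).1
    · exact (eventually_ge_atTop 4).mono fun k hk => (key k hk).2.1.trans (key k hk).2.2
  · refine tendsto_of_tendsto_of_tendsto_of_le_of_le' hlo hhi ?_ ?_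
    · exact (eventually_ge_atTop 4).mono fun k hk => (key k hk).1.trans (key k hk).2.1
    · exact (eventually_ge_atTop 4).mono fun k hk => (key k hk).2.2

end Pool.Agent.Work.MP_af7016_co
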